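import Pool.Agent.W659.SA.Defs

/-!
Project SA: transfer of the hypothesis that all the fibres have at most `D` points.
-/

set_option autoImplicit false

namespace Pool.Agent.W924.SA.TRF

open MvPolynomial NumberField Pool.Agent.W659 Pool.Agent.W659.SA

/-- the variables: `V`, `W`, `u`, `u'`, `x`, `y`, `z` -/
abbrev Vars (r s n D : ℕ) : Type :=
  ((Fin r × Fin 3) ⊕ (Fin r × Fin 3)) ⊕ ((Fin s ⊕ Fin s) ⊕
    (((Fin (D + 1) × Fin n) ⊕ (Fin (D + 1) × Fin n)) ⊕
      ((Fin (D + 1) × Fin (D + 1)) × (Fin n × Fin n))))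

section

variable {r s n D : ℕ}

def vV (ij : Fin r × Fin 3) : Vars r s n D := Sum.inl (Sum.inl ij)
def vW (ij : Fin r × Fin 3) : Vars r s n D := Sum.inl (Sum.inr ij)
def vu (l : Fin s) : Vars r s n D := Sum.inr (Sum.inl (Sum.inl l))
def vu' (l : Fin s) : Vars r s n D := Sum.inr (Sum.inl (Sum.inr l))
def vx (l : Fin (D + 1) × Fin n) : Vars r s n D := Sum.inr (Sum.inr (Sum.inl (Sum.inl l)))
def vy (l : Fin (D + 1) × Fin n) : Vars r s n D := Sum.inr (Sum.inr (Sum.inl (Sum.inr l)))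
def vz (l : (Fin (D + 1) × Fin (D + 1)) × (Fin n × Fin n)) : Vars r s n D :=
  Sum.inr (Sum.inr (Sum.inr l))

/-- the embedding of the variables of `G` -/
def emb (l : Fin (D + 1)) : ((Fin r × Fin 3) ⊕ (Fin s ⊕ Fin n)) → Vars r s n D :=
  Sum.elim vV (Sum.elim vu (fun i => vx (l, i)))

end

/-- the equations in terms of the values -/
def Sol {O k : Type} [CommRing O] [Field k] (φ : O →+* k) {r s n : ℕ} (a b : Fin r → ℤ) {J : Type}
    (G : J → Pol O r s n) (D : ℕ) (x : Vars r s n D → k) : Prop :=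
  (∀ i : Fin r, x (vV (i, 1)) ^ 2 * x (vV (i, 2)) - (x (vV (i, 0)) ^ 3 +
      (a i : k) * x (vV (i, 0)) * x (vV (i, 2)) ^ 2 + (b i : k) * x (vV (i, 2)) ^ 3) = 0) ∧
  (∀ i : Fin r, (∑ j : Fin 3, x (vV (i, j)) * x (vW (i, j))) - 1 = 0) ∧
  (∀ l : Fin s, x (vu l) * x (vu' l) - 1 = 0) ∧
  (∀ l : Fin (D + 1), (∑ i : Fin n, x (vx (l, i)) * x (vy (l, i))) - 1 = 0) ∧
  (∀ q : {q : Fin (D + 1) × Fin (D + 1) // q.1 ≠ q.2}, (∑ ij : Fin n × Fin n,
      (x (vx (q.1.1, ij.1)) * x (vx (q.1.2, ij.2)) - x (vx (q.1.1, ij.2)) * x (vx (q.1.2, ij.1))) *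
        x (vz (q.1, ij))) - 1 = 0) ∧
  (∀ jl : J × Fin (D + 1), eval₂ φ (x ∘ emb jl.2) (G jl.1) = 0)

/-- the equations -/
noncomputable def eqs {O : Type} [CommRing O] {r s n : ℕ} (a b : Fin r → ℤ) {J : Type}
    (G : J → Pol O r s n) (D : ℕ) : Set (MvPolynomial (Vars r s n D) O) :=
  (Set.range fun i : Fin r => X (vV (i, 1)) ^ 2 * X (vV (i, 2)) - (X (vV (i, 0)) ^ 3 +
      (a i : MvPolynomial (Vars r s n D) O) * X (vV (i, 0)) * X (vV (i, 2)) ^ 2 +
        (b i : MvPolynomial (Vars r s n D) O) * X (vV (i, 2)) ^ 3)) ∪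
  ((Set.range fun i : Fin r => (∑ j : Fin 3, X (vV (i, j)) * X (vW (i, j))) - 1) ∪
  ((Set.range fun l : Fin s => X (vu l) * X (vu' l) - 1) ∪
  ((Set.range fun l : Fin (D + 1) => (∑ i : Fin n, X (vx (l, i)) * X (vy (l, i))) - 1) ∪
  ((Set.range fun q : {q : Fin (D + 1) × Fin (D + 1) // q.1 ≠ q.2} => (∑ ij : Fin n × Fin n,
      (X (vx (q.1.1, ij.1)) * X (vx (q.1.2, ij.2)) - X (vx (q.1.1, ij.2)) * X (vx (q.1.2, ij.1))) *
        X (vz (q.1, ij))) - 1) ∪
  (Set.range fun jl : J × Fin (D + 1) => rename (emb jl.2) (G jl.1))))))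

lemma eqs_iff {O k : Type} [CommRing O] [Field k] (φ : O →+* k) {r s n : ℕ} (a b : Fin r → ℤ)
    {J : Type} (G : J → Pol O r s n) (D : ℕ) (x : Vars r s n D → k) :
    (∀ f ∈ Ideal.span (eqs a b G D), eval₂ φ x f = 0) ↔ Sol φ a b G D x := by
  have h1 : (∀ f ∈ Ideal.span (eqs a b G D), eval₂ φ x f = 0) ↔ ∀ f ∈ eqs a b G D,
      eval₂Hom φ x f = 0 := by
    constructor
    · intro h f hf
      exact h f (Ideal.subset_span hf)
    · intro h f hf
      have h2 : Ideal.span (eqs a b G D) ≤ RingHom.ker (eval₂Hom φ x) :=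
        Ideal.span_le.2 fun g hg => h g hg
      exact h2 hf
  have hr : ∀ (l : Fin (D + 1)) (g : Pol O r s n),
      eval₂Hom φ x (rename (emb l) g) = eval₂ φ (x ∘ emb l) g := fun l g => by
    rw [coe_eval₂Hom, eval₂_rename]
  rw [h1]
  unfold eqs Sol
  simp only [Set.mem_union, or_imp, forall_and, Set.forall_mem_range, map_sub, map_mul, map_pow,
    map_add, map_sum, map_one, map_intCast, hr, eval₂Hom_X']

theorem main : S_TRK → S_TRF := by
  intro hTRK K _ _ r s n a b J _ G σ D hG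
  by_contra hcon
  push Not at hcon
  obtain ⟨x, hx⟩ := hTRK K (Vars r s n D) (Ideal.span (eqs a b G D)) (by
    intro N
    obtain ⟨p, hp, hNp, k, hk, hc, φ, V, u, hV, hu, hA⟩ := hcon N
    unfold AtMost at hA
    push Not at hA
    obtain ⟨x, hx0, hxG, hxp⟩ := hA
    refine ⟨p, hp, hNp, k, hk, hc, φ, ?_⟩
    have hW : ∀ i, ∃ W : Fin 3 → k, ∑ j, V i j * W j = 1 := by
      intro i
      obtain ⟨j, hj⟩ := Function.ne_iff.1 (hV i).1
      refine ⟨Pi.single j (V i j)⁻¹, ?_⟩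
      rw [Finset.sum_eq_single j]
      · rw [Pi.single_eq_same]
        exact mul_inv_cancel₀ hj
      · intro k _ hk
        rw [Pi.single_eq_of_ne hk, mul_zero]
      · intro h
        exact absurd (Finset.mem_univ j) h
    choose W hW using hW
    have hy : ∀ l, ∃ y : Fin n → k, ∑ j, x l j * y j = 1 := by
      intro l
      obtain ⟨j, hj⟩ := Function.ne_iff.1 (hx0 l)
      refine ⟨Pi.single j (x l j)⁻¹, ?_⟩
      rw [Finset.sum_eq_single j]
      · rw [Pi.single_eq_same]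
        exact mul_inv_cancel₀ hj
      · intro k _ hk
        rw [Pi.single_eq_of_ne hk, mul_zero]
      · intro h
        exact absurd (Finset.mem_univ j) h
    choose y hy using hy
    have hz : ∀ q : Fin (D + 1) × Fin (D + 1), ∃ z : Fin n × Fin n → k, q.1 ≠ q.2 →
        ∑ ij : Fin n × Fin n, (x q.1 ij.1 * x q.2 ij.2 - x q.1 ij.2 * x q.2 ij.1) * z ij = 1 := by
      intro q
      by_cases hq : q.1 = q.2
      · exact ⟨0, fun h => absurd hq h⟩
      · obtain ⟨ij, hij⟩ : ∃ ij : Fin n × Fin n,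
            x q.1 ij.1 * x q.2 ij.2 - x q.1 ij.2 * x q.2 ij.1 ≠ 0 := by
          by_contra hno
          push Not at hno
          obtain ⟨j, hj⟩ := Function.ne_iff.1 (hx0 q.2)
          refine hxp q.1 q.2 hq (x q.1 j / x q.2 j) ?_
          funext i
          have h1 := hno (i, j)
          simp only at h1
          have hj' : x q.2 j ≠ 0 := hj
          rw [Pi.smul_apply, smul_eq_mul]
          field_simp
          linear_combination h1
        refine ⟨Pi.single ij (x q.1 ij.1 * x q.2 ij.2 - x q.1 ij.2 * x q.2 ij.1)⁻¹, fun _ => ?_⟩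
        rw [Finset.sum_eq_single ij]
        · rw [Pi.single_eq_same]
          exact mul_inv_cancel₀ hij
        · intro k _ hk
          rw [Pi.single_eq_of_ne hk, mul_zero]
        · intro h
          exact absurd (Finset.mem_univ ij) h
    choose z hz using hz
    refine ⟨Sum.elim (Sum.elim (fun ij => V ij.1 ij.2) (fun ij => W ij.1 ij.2))
      (Sum.elim (Sum.elim u (fun l => (u l)⁻¹))
        (Sum.elim (Sum.elim (fun li => x li.1 li.2) (fun li => y li.1 li.2))
          (fun q => z q.1 q.2))), ?_⟩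
    rw [eqs_iff]
    refine ⟨fun i => ?_, fun i => ?_, fun l => ?_, fun l => ?_, fun q => ?_, fun jl => ?_⟩
    · simp only [vV, Sum.elim_inl]
      exact sub_eq_zero.2 (hV i).2
    · simp only [vV, vW, Sum.elim_inl, Sum.elim_inr]
      exact sub_eq_zero.2 (hW i)
    · simp only [vu, vu', Sum.elim_inl, Sum.elim_inr]
      exact sub_eq_zero.2 (mul_inv_cancel₀ (hu l))
    · simp only [vx, vy, Sum.elim_inl, Sum.elim_inr]
      exact sub_eq_zero.2 (hy l)
    · simp only [vx, vz, Sum.elim_inl, Sum.elim_inr]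
      exact sub_eq_zero.2 (hz q.1 q.2)
    · have h1 := hxG jl.2 jl.1
      unfold vl at h1
      rw [← h1]
      congr 1
      funext w
      rcases w with ij | l | i <;> rfl) σ
  rw [eqs_iff] at hx
  obtain ⟨h1, h2, h3, h4, h5, h6⟩ := hx
  have hV : ∀ i, FD.OnE (a i) (b i) ((fun (i : Fin r) (j : Fin 3) => x (vV (i, j))) i) := by
    intro i
    refine ⟨fun h0 => ?_, sub_eq_zero.1 (h1 i)⟩
    have h7 := h2 i
    have h8 : ∀ j, x (vV (i, j)) = 0 := fun j => congrFun h0 j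
    simp [h8] at h7
  have hu : ∀ l, (fun (l : Fin s) => x (vu l)) l ≠ 0 := by
    intro l h0
    have h7 := h3 l
    have h0' : x (vu l) = 0 := h0
    simp [h0'] at h7
  have hx0 : ∀ l, (fun (l : Fin (D + 1)) (i : Fin n) => x (vx (l, i))) l ≠ 0 := by
    intro l h0
    have h7 := h4 l
    have h8 : ∀ i, x (vx (l, i)) = 0 := fun i => congrFun h0 i
    simp [h8] at h7
  have hxG : ∀ l j, vl (toC σ) (G j) (fun (i : Fin r) (j : Fin 3) => x (vV (i, j)))
      (fun (l : Fin s) => x (vu l))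
      ((fun (l : Fin (D + 1)) (i : Fin n) => x (vx (l, i))) l) = 0 := by
    intro l j
    have h7 := h6 (j, l)
    unfold vl
    rw [← h7]
    congr 1
    funext w
    rcases w with ij | l | i <;> rfl
  obtain ⟨l, l', hll, c, hc⟩ := hG _ _ hV hu _ hx0 hxG
  have h7 := h5 ⟨(l, l'), hll⟩
  have h8 : ∀ i, x (vx (l, i)) = c * x (vx (l', i)) := fun i => congrFun hc i
  simp only [h8] at h7
  rw [Finset.sum_eq_zero] at h7
  · norm_num at h7
  · intro ij _
    ring

end Pool.Agent.W924.SA.TRF
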